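import Pool.Agent.W711.HT.Rt
import Pool.Agent.W709.RT.Main2

/-!
# Part RTALG of project HT: the R-matrix state sum at generic `v`
(helper349; uses the files of helper709)
-/

set_option autoImplicit false
set_option maxHeartbeats 1000000

namespace Pool.Agent.W349.HT

open Finset Matrix Pool.Agent.H550R3.Jones Pool.Agent.W709.RT
open scoped Kronecker

/-- divided difference on an interval -/
noncomputable def gdd (u g : ℕ → ℂ) (l n : ℕ) : ℂ :=
  ∑ k ∈ Icc l n, Lagrange.nodalWeight (Icc l n) u k * g k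

lemma dd_reindex (u g : ℕ → ℂ) (m : ℕ) (T : Finset ℕ) (f f' : ℕ → ℕ)
    (h1 : ∀ k ∈ range (m + 1), f k ∈ T) (h2 : ∀ k ∈ T, f' k ∈ range (m + 1))
    (h3 : ∀ k ∈ range (m + 1), f' (f k) = k) (h4 : ∀ k ∈ T, f (f' k) = k) :
    dd (fun k => u (f k)) (fun k => g (f k)) m = ∑ k ∈ T, Lagrange.nodalWeight T u k * g k := by
  unfold dd
  refine Finset.sum_nbij' f f' h1 h2 h3 h4 ?_
  intro k hk
  congr 1
  unfold Lagrange.nodalWeight
  refine Finset.prod_nbij' f f' ?_ ?_ ?_ ?_ ?_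
  · intro j hj
    rw [Finset.mem_erase] at hj ⊢
    refine ⟨fun he => hj.1 ?_, h1 j hj.2⟩
    rw [← h3 j hj.2, he, h3 k hk]
  · intro j hj
    rw [Finset.mem_erase] at hj ⊢
    refine ⟨fun he => hj.1 ?_, h2 j hj.2⟩
    rw [← h4 j hj.2, he]
  · intro j hj
    exact h3 j (Finset.mem_erase.1 hj).2
  · intro j hj
    exact h4 j (Finset.mem_erase.1 hj).2
  · intro j _
    rfl

lemma newton_up (u g : ℕ → ℂ) (i N : ℕ) (h : Set.InjOn u (range N)) (c : ℕ) (hi : i ≤ c)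
    (hc : c < N) : g c = ∑ n ∈ Ico i N, gdd u g i n * ∏ j ∈ Ico i n, (u c - u j) := by
  have hinj : Set.InjOn (fun k => u (i + k)) (range (N - i)) := by
    intro a ha b hb hab
    simp only [Finset.coe_range, Set.mem_Iio] at ha hb
    have := h (by simp only [Finset.coe_range, Set.mem_Iio]; omega)
      (by simp only [Finset.coe_range, Set.mem_Iio]; omega) hab
    omega
  have h1 := newton (fun k => u (i + k)) (fun k => g (i + k)) (N - i) hinj (c - i) (by omega)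
  have e0 : i + (c - i) = c := by omega
  rw [e0] at h1
  rw [h1, Finset.sum_Ico_eq_sum_range]
  apply Finset.sum_congr rfl
  intro m _
  have h2 := dd_reindex u g m (Icc i (i + m)) (fun k => i + k) (fun k => k - i)
    (by intro k hk; rw [Finset.mem_range] at hk; rw [Finset.mem_Icc]; omega)
    (by intro k hk; rw [Finset.mem_Icc] at hk; rw [Finset.mem_range]; omega)
    (by intro k _; omega) (by intro k hk; rw [Finset.mem_Icc] at hk; omega)
  rw [h2, Finset.prod_Ico_eq_prod_range]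
  have e1 : i + m - i = m := by omega
  rw [e1]
  rfl

lemma newton_down (u g : ℕ → ℂ) (n N : ℕ) (h : Set.InjOn u (range N)) (hn : n < N) (c : ℕ)
    (hc : c ≤ n) : g c = ∑ i ∈ range (n + 1), gdd u g i n * ∏ j ∈ Ioc i n, (u c - u j) := by
  have hinj : Set.InjOn (fun k => u (n - k)) (range (n + 1)) := by
    intro a ha b hb hab
    simp only [Finset.coe_range, Set.mem_Iio] at ha hb
    have := h (by simp only [Finset.coe_range, Set.mem_Iio]; omega)
      (by simp only [Finset.coe_range, Set.mem_Iio]; omega) hab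
    omega
  have h1 := newton (fun k => u (n - k)) (fun k => g (n - k)) (n + 1) hinj (n - c) (by omega)
  have e0 : n - (n - c) = c := by omega
  rw [e0] at h1
  rw [h1, ← Finset.sum_range_reflect]
  apply Finset.sum_congr rfl
  intro i hi
  rw [Finset.mem_range] at hi
  have e1 : n + 1 - 1 - i = n - i := by omega
  rw [e1]
  have h2 := dd_reindex u g (n - i) (Icc i n) (fun k => n - k) (fun k => n - k)
    (by intro k hk; rw [Finset.mem_range] at hk; rw [Finset.mem_Icc]; omega)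
    (by intro k hk; rw [Finset.mem_Icc] at hk; rw [Finset.mem_range]; omega)
    (by intro k hk; rw [Finset.mem_range] at hk; omega)
    (by intro k hk; rw [Finset.mem_Icc] at hk; omega)
  rw [h2]
  have h3 : ∏ j ∈ range (n - i), (u c - u (n - j)) = ∏ j ∈ Ioc i n, (u c - u j) := by
    refine Finset.prod_nbij' (fun k => n - k) (fun k => n - k) ?_ ?_ ?_ ?_ ?_
    · intro j hj
      rw [Finset.mem_range] at hj
      rw [Finset.mem_Ioc]
      omega
    · intro j hj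
      rw [Finset.mem_Ioc] at hj
      rw [Finset.mem_range]
      omega
    · intro j hj
      rw [Finset.mem_range] at hj
      omega
    · intro j hj
      rw [Finset.mem_Ioc] at hj
      omega
    · intro j _
      rfl
  rw [h3]
  rfl

section act

variable {N : ℕ} {u : ℂ} {φ : ∀ d : Fin N, Matrix (Fin N × Fin N) (Fin (cc N d)) ℂ}
  {ψ : ∀ d : Fin N, Matrix (Fin (cc N d)) (Fin N × Fin N) ℂ}

lemma on12_FF (hu : u ≠ 0) (h : IsDec u N φ ψ) (hinj : Set.InjOn (ui (u ^ 2)) (range N))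
    (g : ℕ → ℂ) (i : ℕ) :
    on12 (Fn φ ψ (fun d => g (N - 1 - d))) *ᵥ FF (u ^ 2) N i =
      ∑ n ∈ Ico i N, gdd (ui (u ^ 2)) g i n • FF (u ^ 2) N n := by
  have h0 : (fun d : Fin N => g (N - 1 - d) * PP (u ^ 2) N i d) =
      fun d => ∑ n ∈ Ico i N, gdd (ui (u ^ 2)) g i n * PP (u ^ 2) N n d := by
    funext d
    have hd := d.isLt
    unfold PP
    rw [UU_eq]
    by_cases hc : i ≤ N - 1 - (d : ℕ)
    · rw [newton_up (ui (u ^ 2)) g i N hinj (N - 1 - d) hc (by omega), Finset.sum_mul]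
      apply Finset.sum_congr rfl
      intro n hn
      rw [Finset.mem_Ico] at hn
      rw [← Finset.prod_range_mul_prod_Ico _ hn.1]
      ring
    · push Not at hc
      have hz : ∀ m : ℕ, N - 1 - (d : ℕ) < m →
          ∏ j ∈ range m, (ui (u ^ 2) (N - 1 - d) - ui (u ^ 2) j) = 0 := by
        intro m hm
        exact Finset.prod_eq_zero (Finset.mem_range.2 hm) (sub_self _)
      rw [hz i hc, mul_zero]
      symm
      apply Finset.sum_eq_zero
      intro n hn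
      rw [Finset.mem_Ico] at hn
      rw [hz n (by omega), mul_zero]
  rw [← FF_eq hu h i, Matrix.mulVec_mulVec, ← on12_mul, ← Fn_mul h, h0, Fn_sum]
  rw [on12_sum]
  simp only [on12_smul]
  rw [Matrix.sum_mulVec]
  apply Finset.sum_congr rfl
  intro n _
  rw [Matrix.smul_mulVec, FF_eq hu h n]

/-- the products of the operators `X_{23} - u_j` -/
lemma on23_chain (hu : u ≠ 0) (h : IsDec u N φ ψ)
    (hb : ∀ k : ℕ, 0 < k → k < N → br (u ^ 2) k ≠ 0) (i m : ℕ) :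
    on23 (Fn φ ψ (fun d => ∏ j ∈ Ioc i (i + m), (UU (u ^ 2) N d - ui (u ^ 2) j))) *ᵥ
      FF (u ^ 2) N (i + m) = (∏ j ∈ Ioc i (i + m), ci (u ^ 2) N j) • FF (u ^ 2) N i := by
  have hv : u ^ 2 ≠ 0 := pow_ne_zero 2 hu
  induction m with
  | zero =>
    simp only [add_zero, Finset.Ioc_self, Finset.prod_empty]
    rw [Fn_one h, on23_one, Matrix.one_mulVec, one_smul]
  | succ m ih =>
    have e1 : Ioc i (i + (m + 1)) = insert (i + m + 1) (Ioc i (i + m)) := by
      ext x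
      rw [Finset.mem_insert, Finset.mem_Ioc, Finset.mem_Ioc]
      omega
    have e2 : i + m + 1 ∉ Ioc i (i + m) := by
      rw [Finset.mem_Ioc]
      omega
    simp only [e1, Finset.prod_insert e2]
    have e3 : (fun d : Fin N => (UU (u ^ 2) N d - ui (u ^ 2) (i + m + 1)) *
        ∏ j ∈ Ioc i (i + m), (UU (u ^ 2) N d - ui (u ^ 2) j)) = fun d =>
        (∏ j ∈ Ioc i (i + m), (UU (u ^ 2) N d - ui (u ^ 2) j)) *
          (UU (u ^ 2) N d - ui (u ^ 2) (i + m + 1)) := by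
      funext d
      rw [mul_comm]
    rw [e3, Fn_mul h, ← cas_sub hu h, on23_mul, ← Matrix.mulVec_mulVec, on23_sub, on23_smul,
      on23_one, Matrix.sub_mulVec, Matrix.smul_mulVec, Matrix.one_mulVec]
    have e4 : i + (m + 1) = (i + m) + 1 := by omega
    rw [e4, D_succ hv hb]
    have e5 : ui (u ^ 2) (i + m + 1) • FF (u ^ 2) N (i + m + 1) + ci (u ^ 2) N (i + m + 1) •
        FF (u ^ 2) N (i + m) - ui (u ^ 2) (i + m + 1) • FF (u ^ 2) N (i + m + 1) =
        ci (u ^ 2) N (i + m + 1) • FF (u ^ 2) N (i + m) := by abel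
    rw [e5, Matrix.mulVec_smul, ih, smul_smul]

lemma on23_kill (hu : u ≠ 0) (h : IsDec u N φ ψ)
    (hb : ∀ k : ℕ, 0 < k → k < N → br (u ^ 2) k ≠ 0) (n : ℕ) :
    on23 (Fn φ ψ (fun d => ∏ j ∈ range (n + 1), (UU (u ^ 2) N d - ui (u ^ 2) j))) *ᵥ
      FF (u ^ 2) N n = 0 := by
  have hv : u ^ 2 ≠ 0 := pow_ne_zero 2 hu
  have e1 : (fun d : Fin N => ∏ j ∈ range (n + 1), (UU (u ^ 2) N d - ui (u ^ 2) j)) =
      fun d => (UU (u ^ 2) N d - ui (u ^ 2) 0) *
        ∏ j ∈ Ioc 0 (0 + n), (UU (u ^ 2) N d - ui (u ^ 2) j) := by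
    funext d
    have e2 : range (n + 1) = insert 0 (Ioc 0 (0 + n)) := by
      ext x
      rw [Finset.mem_insert, Finset.mem_Ioc, Finset.mem_range]
      omega
    rw [e2, Finset.prod_insert (by rw [Finset.mem_Ioc]; omega)]
  have h1 := on23_chain hu h hb 0 n
  rw [zero_add] at h1 e1
  rw [e1, Fn_mul h, on23_mul, ← Matrix.mulVec_mulVec, h1, Matrix.mulVec_smul, ← cas_sub hu h,
    on23_sub, on23_smul, on23_one, Matrix.sub_mulVec, Matrix.smul_mulVec, Matrix.one_mulVec,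
    D_zero hv hb, sub_self, smul_zero]

lemma wn_ci (N : ℕ) (v : ℂ) (n : ℕ) :
    Pool.Agent.W711.HT.wn N v n = ∏ l ∈ range n, ci v N (l + 1) := rfl

lemma ci_ne (hg : Gen u) {i : ℕ} (h0 : 0 < i) (hi : i < N) : ci (u ^ 2) N i ≠ 0 := by
  unfold ci
  have h1 := hg.2 (N + i) (by omega)
  have h2 := hg.2 (N - i) (by omega)
  have h3 := hg.2 i h0
  have e1 : ((N + i : ℕ) : ℤ) = (N : ℤ) + i := by push_cast; rfl
  have e2 : ((N - i : ℕ) : ℤ) = (N : ℤ) - i := by omega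
  rw [e1] at h1
  rw [e2] at h2
  exact neg_ne_zero.2 (mul_ne_zero (mul_ne_zero h1 h2) (pow_ne_zero 2 h3))

lemma wn_div (hg : Gen u) {i n : ℕ} (hi : i ≤ n) (hn : n < N) :
    ∏ j ∈ Ioc i n, ci (u ^ 2) N j =
      Pool.Agent.W711.HT.wn N (u ^ 2) n / Pool.Agent.W711.HT.wn N (u ^ 2) i := by
  rw [wn_ci, wn_ci]
  have h0 : ∏ l ∈ range i, ci (u ^ 2) N (l + 1) ≠ 0 := by
    rw [Finset.prod_ne_zero_iff]
    intro l hl
    rw [Finset.mem_range] at hl
    exact ci_ne hg (by omega) (by omega)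
  rw [eq_div_iff h0, mul_comm, ← Finset.prod_range_mul_prod_Ico _ hi]
  congr 1
  refine (Finset.prod_nbij' (fun k => k - 1) (fun k => k + 1) ?_ ?_ ?_ ?_ ?_)
  · intro j hj
    rw [Finset.mem_Ioc] at hj
    rw [Finset.mem_Ico]
    omega
  · intro j hj
    rw [Finset.mem_Ico] at hj
    rw [Finset.mem_Ioc]
    omega
  · intro j hj
    rw [Finset.mem_Ioc] at hj
    omega
  · intro j _
    omega
  · intro j hj
    rw [Finset.mem_Ioc] at hj
    have : j - 1 + 1 = j := by omega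
    rw [this]

lemma on23_FF (hg : Gen u) (h : IsDec u N φ ψ) (hinj : Set.InjOn (ui (u ^ 2)) (range N))
    (g : ℕ → ℂ) {n : ℕ} (hn : n < N) :
    on23 (Fn φ ψ (fun d => g (N - 1 - d))) *ᵥ FF (u ^ 2) N n =
      ∑ i ∈ range (n + 1), (gdd (ui (u ^ 2)) g i n * (Pool.Agent.W711.HT.wn N (u ^ 2) n /
        Pool.Agent.W711.HT.wn N (u ^ 2) i)) • FF (u ^ 2) N i := by
  have hu : u ≠ 0 := hg.1
  have hb : ∀ k : ℕ, 0 < k → k < N → br (u ^ 2) k ≠ 0 := fun k hk _ => hg.2 k hk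
  set S : Fin N → ℂ := fun d => ∑ i ∈ range (n + 1), gdd (ui (u ^ 2)) g i n *
    ∏ j ∈ Ioc i n, (UU (u ^ 2) N d - ui (u ^ 2) j) with hS
  set R : Fin N → ℂ := fun d => (g (N - 1 - d) - S d) /
    ∏ j ∈ range (n + 1), (UU (u ^ 2) N d - ui (u ^ 2) j) with hR
  have h0 : (fun d : Fin N => g (N - 1 - d)) = fun d => S d +
      R d * ∏ j ∈ range (n + 1), (UU (u ^ 2) N d - ui (u ^ 2) j) := by
    funext d
    have hd := d.isLt
    by_cases hc : N - 1 - (d : ℕ) ≤ n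
    · have h1 := newton_down (ui (u ^ 2)) g n N hinj hn (N - 1 - d) hc
      have h2 : S d = g (N - 1 - d) := by
        rw [hS, h1]
        simp only [UU_eq]
      have h3 : ∏ j ∈ range (n + 1), (UU (u ^ 2) N d - ui (u ^ 2) j) = 0 := by
        rw [UU_eq]
        exact Finset.prod_eq_zero (Finset.mem_range.2 (by omega : N - 1 - (d : ℕ) < n + 1))
          (sub_self _)
      rw [h3, mul_zero, add_zero, h2]
    · push Not at hc
      have h3 : ∏ j ∈ range (n + 1), (UU (u ^ 2) N d - ui (u ^ 2) j) ≠ 0 := by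
        rw [Finset.prod_ne_zero_iff]
        intro j hj
        rw [Finset.mem_range] at hj
        rw [UU_eq, sub_ne_zero]
        intro he
        have := hinj (by simp only [Finset.coe_range, Set.mem_Iio]; omega)
          (by simp only [Finset.coe_range, Set.mem_Iio]; omega) he
        omega
      rw [hR]
      simp only
      rw [div_mul_cancel₀ _ h3]
      ring
  have hadd : Fn φ ψ (fun d => S d + R d * ∏ j ∈ range (n + 1), (UU (u ^ 2) N d - ui (u ^ 2) j)) =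
      Fn φ ψ S + Fn φ ψ (fun d => R d * ∏ j ∈ range (n + 1), (UU (u ^ 2) N d - ui (u ^ 2) j)) := by
    unfold Fn
    rw [← Finset.sum_add_distrib]
    apply Finset.sum_congr rfl
    intro d _
    rw [add_smul]
  have on23_add : ∀ A B : Matrix (Fin N × Fin N) (Fin N × Fin N) ℂ,
      on23 (A + B) = on23 A + on23 B := by
    intro A B
    ext p q
    simp only [on23, Matrix.add_apply]
    split_ifs <;> simp
  rw [h0, hadd, on23_add, Matrix.add_mulVec]
  have hk : on23 (Fn φ ψ (fun d => R d * ∏ j ∈ range (n + 1),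
      (UU (u ^ 2) N d - ui (u ^ 2) j))) *ᵥ FF (u ^ 2) N n = 0 := by
    rw [Fn_mul h, on23_mul, ← Matrix.mulVec_mulVec, on23_kill hu h hb n, Matrix.mulVec_zero]
  rw [hk, add_zero, hS, Fn_sum, on23_sum]
  simp only [on23_smul]
  rw [Matrix.sum_mulVec]
  apply Finset.sum_congr rfl
  intro i hi
  rw [Finset.mem_range] at hi
  have h2 := on23_chain hu h hb i (n - i)
  rw [show i + (n - i) = n by omega] at h2
  rw [Matrix.smul_mulVec, h2, smul_smul, wn_div hg (by omega) hn]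

end act

/-! ### words -/

/-- the operator of the word -/
noncomputable def MW {N : ℕ} (P Q : Matrix (Fin N × Fin N) (Fin N × Fin N) ℂ) :
    Bool → List ℕ → Matrix (Fin N × (Fin N × Fin N)) (Fin N × (Fin N × Fin N)) ℂ
  | _, [] => 1
  | b, a :: l => MW P Q (!b) l * (if b then on12 P else on23 Q) ^ a

lemma rep_wrd {N : ℕ} (P Q : Matrix (Fin N × Fin N) (Fin N × Fin N) ℂ) (l : List ℕ) :
    ∀ b : Bool, rep P Q 3 (Pool.Agent.W711.HT.wrd b l) = (MW P Q b l).submatrix e3 e3 := by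
  induction l with
  | nil =>
    intro b
    unfold Pool.Agent.W711.HT.wrd MW rep
    rw [List.map_nil, List.prod_nil]
    exact (submatrix_one_equiv _).symm
  | cons a l ih =>
    intro b
    have h1 : rep P Q 3 (Pool.Agent.W711.HT.wrd b (a :: l)) =
        rep P Q 3 (Pool.Agent.W711.HT.wrd (!b) l) *
          rep P Q 3 (List.replicate a (if b then (0, true) else (1, false))) := by
      have h0 : Pool.Agent.W711.HT.wrd b (a :: l) = Pool.Agent.W711.HT.wrd (!b) l ++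
        List.replicate a (if b then (0, true) else (1, false)) := rfl
      rw [h0]
      unfold rep
      rw [List.map_append, List.prod_append]
    have h2 : rep P Q 3 (List.replicate a (if b then (0, true) else (1, false))) =
        ((if b then on12 P else on23 Q) ^ a).submatrix e3 e3 := by
      unfold rep
      rw [List.map_replicate, List.prod_replicate]
      cases b
      · simp only [Bool.false_eq_true, if_false]
        rw [gen_one, submatrix_pow]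
      · simp only [if_true]
        rw [gen_zero, submatrix_pow]
    rw [h1, h2, ih (!b), submatrix_mul_equiv]
    rfl

section gen

variable {N : ℕ} {u : ℂ}

/-- the constant -/
noncomputable def KK (v : ℂ) (N : ℕ) : ℂ := (-1) ^ (N - 1) * v ^ (-((N : ℤ) ^ 2 - 1))

lemma KK_ne {v : ℂ} (hv : v ≠ 0) (N : ℕ) : KK v N ≠ 0 :=
  mul_ne_zero (pow_ne_zero _ (by norm_num)) (zpow_ne_zero _ hv)

lemma KK_eq (hu : u ≠ 0) (N : ℕ) : u ^ (-((N : ℤ) ^ 2 - 1)) * fr u N = KK (u ^ 2) N := by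
  unfold fr KK
  have h1 : (u ^ 2) ^ (-((N : ℤ) ^ 2 - 1)) = u ^ (-((N : ℤ) ^ 2 - 1)) * u ^ (-((N : ℤ) ^ 2 - 1)) := by
    rw [← zpow_add₀ hu, ← zpow_natCast, ← _root_.zpow_mul]
    congr 1
    push_cast
    ring
  rw [h1]
  ring

lemma cross12 (hg : Gen u) {φ : ∀ d : Fin N, Matrix (Fin N × Fin N) (Fin (cc N d)) ℂ}
    {ψ : ∀ d : Fin N, Matrix (Fin (cc N d)) (Fin N × Fin N) ℂ} (h : IsDec u N φ ψ) (a : ℕ) :
    on12 (crossP N (u ^ 2)) ^ a = KK (u ^ 2) N ^ (a : ℤ) •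
      on12 (Fn φ ψ (fun d => TT (u ^ 2) (N - 1 - d) ^ (a : ℤ))) := by
  have hu0 : u ≠ 0 := hg.1
  have hR : Rh u (irr (u ^ 2) N) (irr (u ^ 2) N) = Fn φ ψ (lam u N) := Fn_eq h _ _ h.eig
  obtain ⟨hP, hQ⟩ := Pool.Agent.H559R3.J.taskCross u hg N
  rw [hP, hR, on12_pow, smul_pow, Fn_pow h]
  have h1 : (fun d => lam u N d ^ a) = fun d : Fin N => fr u N ^ a *
      TT (u ^ 2) (N - 1 - d) ^ (a : ℤ) := by
    funext d
    rw [lam_eq hu0, mul_pow, zpow_natCast]
  rw [h1, Fn_smul, smul_smul, on12_smul, ← mul_pow, KK_eq hu0, zpow_natCast]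

lemma cross23 (hg : Gen u) {φ : ∀ d : Fin N, Matrix (Fin N × Fin N) (Fin (cc N d)) ℂ}
    {ψ : ∀ d : Fin N, Matrix (Fin (cc N d)) (Fin N × Fin N) ℂ} (h : IsDec u N φ ψ) (a : ℕ) :
    on23 (crossN N (u ^ 2)) ^ a = KK (u ^ 2) N ^ (-(a : ℤ)) •
      on23 (Fn φ ψ (fun d => TT (u ^ 2) (N - 1 - d) ^ (-(a : ℤ)))) := by
  have hu0 : u ≠ 0 := hg.1
  obtain ⟨hP, hQ⟩ := Pool.Agent.H559R3.J.taskCross u hg N
  rw [hQ, Rhi_Fn hg h, on23_pow, smul_pow, Fn_pow h]
  have h1 : (fun d => (lam u N d)⁻¹ ^ a) = fun d : Fin N => (fr u N ^ a)⁻¹ *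
      TT (u ^ 2) (N - 1 - d) ^ (-(a : ℤ)) := by
    funext d
    rw [lam_eq hu0, inv_pow, mul_pow, mul_inv, _root_.zpow_neg, zpow_natCast]
  have h2 : (u ^ ((N : ℤ) ^ 2 - 1)) ^ a * (fr u N ^ a)⁻¹ = KK (u ^ 2) N ^ (-(a : ℤ)) := by
    rw [← KK_eq hu0, _root_.zpow_neg u, _root_.zpow_neg _ (a : ℤ), zpow_natCast, mul_pow, mul_inv,
      inv_pow, inv_inv]
  rw [h1, Fn_smul, smul_smul, on23_smul, h2]

lemma gd_gdd (v : ℂ) (a : ℤ) (l n : ℕ) :
    Pool.Agent.W711.HT.gd v a l n = gdd (ui v) (fun k => TT v k ^ a) l n := rfl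

/-- the action of the word -/
lemma MW_act (hg : Gen u) {φ : ∀ d : Fin N, Matrix (Fin N × Fin N) (Fin (cc N d)) ℂ}
    {ψ : ∀ d : Fin N, Matrix (Fin (cc N d)) (Fin N × Fin N) ℂ} (h : IsDec u N φ ψ) (l : List ℕ) :
    ∀ (b : Bool) (c : ℕ → ℂ), MW (crossP N (u ^ 2)) (crossN N (u ^ 2)) b l *ᵥ
      (∑ n ∈ range N, c n • FF (u ^ 2) N n) = KK (u ^ 2) N ^ (Pool.Agent.W711.HT.alt b l) •
        ∑ n ∈ range N, Pool.Agent.W711.HT.sv N (u ^ 2) b l c n • FF (u ^ 2) N n := by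
  have hu0 : u ≠ 0 := hg.1
  have hv : u ^ 2 ≠ 0 := pow_ne_zero 2 hu0
  have hK := KK_ne hv N
  have hinj : Set.InjOn (ui (u ^ 2)) (range N) := ui_inj hg
  induction l with
  | nil =>
    intro b c
    unfold MW Pool.Agent.W711.HT.alt Pool.Agent.W711.HT.sv
    rw [Matrix.one_mulVec, zpow_zero, one_smul]
  | cons a l ih =>
    intro b c
    cases b
    · have h1 : MW (crossP N (u ^ 2)) (crossN N (u ^ 2)) false (a :: l) =
          MW (crossP N (u ^ 2)) (crossN N (u ^ 2)) true l * on23 (crossN N (u ^ 2)) ^ a := rfl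
      have h2 : Pool.Agent.W711.HT.alt false (a :: l) =
          -(a : ℤ) + Pool.Agent.W711.HT.alt true l := rfl
      have h3 : Pool.Agent.W711.HT.sv N (u ^ 2) false (a :: l) c =
          Pool.Agent.W711.HT.sv N (u ^ 2) true l fun i => ∑ n ∈ Ico i N,
            Pool.Agent.W711.HT.gd (u ^ 2) (-(a : ℤ)) i n *
              (Pool.Agent.W711.HT.wn N (u ^ 2) n / Pool.Agent.W711.HT.wn N (u ^ 2) i) * c n := rfl
      rw [h1, h2, h3, ← Matrix.mulVec_mulVec, cross23 hg h, Matrix.smul_mulVec, Matrix.mulVec_sum]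
      have h4 : ∑ n ∈ range N, on23 (Fn φ ψ (fun d => TT (u ^ 2) (N - 1 - d) ^ (-(a : ℤ)))) *ᵥ
          (c n • FF (u ^ 2) N n) = ∑ i ∈ range N, (∑ n ∈ Ico i N,
            Pool.Agent.W711.HT.gd (u ^ 2) (-(a : ℤ)) i n *
              (Pool.Agent.W711.HT.wn N (u ^ 2) n / Pool.Agent.W711.HT.wn N (u ^ 2) i) * c n) •
              FF (u ^ 2) N i := by
        have h5 : ∀ n ∈ range N, on23 (Fn φ ψ (fun d => TT (u ^ 2) (N - 1 - d) ^ (-(a : ℤ)))) *ᵥ
            (c n • FF (u ^ 2) N n) = ∑ i ∈ range (n + 1),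
              (Pool.Agent.W711.HT.gd (u ^ 2) (-(a : ℤ)) i n * (Pool.Agent.W711.HT.wn N (u ^ 2) n /
                Pool.Agent.W711.HT.wn N (u ^ 2) i) * c n) • FF (u ^ 2) N i := by
          intro n hn
          rw [Finset.mem_range] at hn
          rw [Matrix.mulVec_smul, on23_FF hg h hinj (fun k => TT (u ^ 2) k ^ (-(a : ℤ))) hn,
            Finset.smul_sum]
          apply Finset.sum_congr rfl
          intro i _
          rw [smul_smul, gd_gdd, mul_comm (c n)]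
        rw [Finset.sum_congr rfl h5]
        simp only [Finset.sum_smul]
        refine Finset.sum_comm' ?_
        intro x y
        rw [Finset.mem_range, Finset.mem_range, Finset.mem_Ico, Finset.mem_range]
        omega
      rw [h4, Matrix.mulVec_smul, ih true, smul_smul, zpow_add₀ hK]
    · have h1 : MW (crossP N (u ^ 2)) (crossN N (u ^ 2)) true (a :: l) =
          MW (crossP N (u ^ 2)) (crossN N (u ^ 2)) false l * on12 (crossP N (u ^ 2)) ^ a := rfl
      have h2 : Pool.Agent.W711.HT.alt true (a :: l) =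
          (a : ℤ) + Pool.Agent.W711.HT.alt false l := rfl
      have h3 : Pool.Agent.W711.HT.sv N (u ^ 2) true (a :: l) c =
          Pool.Agent.W711.HT.sv N (u ^ 2) false l fun n => ∑ i ∈ range (n + 1),
            Pool.Agent.W711.HT.gd (u ^ 2) a i n * c i := rfl
      rw [h1, h2, h3, ← Matrix.mulVec_mulVec, cross12 hg h, Matrix.smul_mulVec, Matrix.mulVec_sum]
      have h4 : ∑ n ∈ range N, on12 (Fn φ ψ (fun d => TT (u ^ 2) (N - 1 - d) ^ (a : ℤ))) *ᵥ
          (c n • FF (u ^ 2) N n) = ∑ n ∈ range N, (∑ i ∈ range (n + 1),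
            Pool.Agent.W711.HT.gd (u ^ 2) a i n * c i) • FF (u ^ 2) N n := by
        have h5 : ∀ i ∈ range N, on12 (Fn φ ψ (fun d => TT (u ^ 2) (N - 1 - d) ^ (a : ℤ))) *ᵥ
            (c i • FF (u ^ 2) N i) = ∑ n ∈ Ico i N,
              (Pool.Agent.W711.HT.gd (u ^ 2) a i n * c i) • FF (u ^ 2) N n := by
          intro i _
          rw [Matrix.mulVec_smul, on12_FF hu0 h hinj (fun k => TT (u ^ 2) k ^ (a : ℤ)) i,
            Finset.smul_sum]
          apply Finset.sum_congr rfl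
          intro n _
          rw [smul_smul, gd_gdd, mul_comm (c i)]
        rw [Finset.sum_congr rfl h5]
        simp only [Finset.sum_smul]
        refine Finset.sum_comm' ?_
        intro x y
        rw [Finset.mem_range, Finset.mem_range, Finset.mem_Ico, Finset.mem_range]
        omega
      rw [h4, Matrix.mulVec_smul, ih false, smul_smul, zpow_add₀ hK]

/-- pairing with `e_0^* ⊗ cap` -/
noncomputable def pr' (v : ℂ) (hN : 0 < N) (w : Fin N × (Fin N × Fin N) → ℂ) : ℂ :=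
  ∑ p : Fin N × Fin N, cap N v p * w (⟨0, hN⟩, p)

lemma mulVec_F0 (v : ℂ) (hN : 0 < N) (M : Matrix (Fin N × (Fin N × Fin N))
    (Fin N × (Fin N × Fin N)) ℂ) (x : Fin N × (Fin N × Fin N)) :
    (M *ᵥ F0 v N) x = ∑ q : Fin N × Fin N, M x (⟨0, hN⟩, q) * cup N v q := by
  unfold Matrix.mulVec dotProduct
  rw [Fintype.sum_prod_type, Finset.sum_eq_single (⟨0, hN⟩ : Fin N)]
  · apply Finset.sum_congr rfl
    intro q _
    unfold F0
    rw [if_pos rfl]
  · intro x _ hx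
    apply Finset.sum_eq_zero
    intro q _
    unfold F0
    rw [if_neg (fun hc => hx (Fin.ext hc)), mul_zero]
  · intro h
    exact absurd (Finset.mem_univ _) h

lemma tang_eq (v : ℂ) (hN : 0 < N) (b : Bool) (l : List ℕ) :
    tang N (Pool.Agent.W711.HT.wrd b l) v ⟨0, hN⟩ ⟨0, hN⟩ =
      pr v hN (MW (crossP N v) (crossN N v) b l *ᵥ F0 v N) := by
  unfold tang pr
  rw [rep_wrd]
  apply Finset.sum_congr rfl
  intro p _
  rw [mulVec_F0 v hN, Finset.mul_sum]
  apply Finset.sum_congr rfl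
  intro q _
  rw [← mul_assoc]
  rfl

lemma tang'_eq (v : ℂ) (hN : 0 < N) (b : Bool) (l : List ℕ) :
    Pool.Agent.W711.HT.tang' N (Pool.Agent.W711.HT.wrd b l) v ⟨0, hN⟩ ⟨0, hN⟩ =
      pr' v hN (MW (crossP N v) (crossN N v) b l *ᵥ F0 v N) := by
  unfold Pool.Agent.W711.HT.tang' pr'
  rw [rep_wrd]
  apply Finset.sum_congr rfl
  intro p _
  rw [mulVec_F0 v hN, Finset.mul_sum]
  apply Finset.sum_congr rfl
  intro q _
  rw [← mul_assoc]
  rfl

/-! ### the closing by the second cap -/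

lemma pr'_23 {v : ℂ} (hv : v ≠ 0) (hb : ∀ k : ℕ, 0 < k → k < N → br v k ≠ 0) (hN : 0 < N)
    (w : Fin N × (Fin N × Fin N) → ℂ) :
    pr' v hN (on23 (cas v (W v N)) *ᵥ w) = ui v 0 * pr' v hN w := by
  unfold pr'
  have h1 : ∑ p : Fin N × Fin N, cap N v p * (on23 (cas v (W v N)) *ᵥ w) (⟨0, hN⟩, p) =
      cap N v ⬝ᵥ (cas v (W v N) *ᵥ (fun z => w (⟨0, hN⟩, z))) := by
    unfold dotProduct
    apply Finset.sum_congr rfl
    intro p _
    obtain ⟨a, b⟩ := p
    rw [on23_mulVec]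
  rw [h1, Matrix.dotProduct_mulVec, cap_cas hv hb, smul_dotProduct]
  rfl

lemma pr'_add {v : ℂ} (hN : 0 < N) (w₁ w₂ : Fin N × (Fin N × Fin N) → ℂ) :
    pr' v hN (w₁ + w₂) = pr' v hN w₁ + pr' v hN w₂ := by
  unfold pr'
  rw [← Finset.sum_add_distrib]
  apply Finset.sum_congr rfl
  intro p _
  rw [Pi.add_apply]
  ring

lemma pr'_smul {v : ℂ} (hN : 0 < N) (a : ℂ) (w : Fin N × (Fin N × Fin N) → ℂ) :
    pr' v hN (a • w) = a * pr' v hN w := by
  unfold pr'
  rw [Finset.mul_sum]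
  apply Finset.sum_congr rfl
  intro p _
  rw [Pi.smul_apply, smul_eq_mul]
  ring

lemma pr'_sum {v : ℂ} (hN : 0 < N) (s : Finset ℕ) (a : ℕ → ℂ)
    (w : ℕ → Fin N × (Fin N × Fin N) → ℂ) :
    pr' v hN (∑ i ∈ s, a i • w i) = ∑ i ∈ s, a i * pr' v hN (w i) := by
  unfold pr'
  simp only [Finset.sum_apply, Pi.smul_apply, smul_eq_mul, Finset.mul_sum]
  rw [Finset.sum_comm]
  apply Finset.sum_congr rfl
  intro i _
  apply Finset.sum_congr rfl
  intro p _
  ring

lemma kap_ratio {v : ℂ} (hv : v ≠ 0) (hb : ∀ k : ℕ, 0 < k → k < N → br v k ≠ 0) {k j : ℕ}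
    (h : k + j = N - 1) (hN : 0 < N) :
    (kap N v j)⁻¹ * kap N v k = (-1) ^ (N - 1) * v ^ ((N : ℤ) - 1 - 2 * k) := by
  have hk : k < N := by omega
  have hj : j < N := by omega
  have hkj : kap N v j ≠ 0 := kap_ne hv hb hj
  have h1 : N - 1 - k = j := by omega
  have h2 : N - 1 - j = k := by omega
  have hs : (-1 : ℂ) ^ (N - 1) * (-1) ^ j = (-1) ^ k := by
    rw [← h, pow_add]
    have : ((-1 : ℂ) ^ j) * (-1) ^ j = 1 := by
      rw [← pow_add, ← two_mul, pow_mul]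
      norm_num
    rw [mul_assoc, this, mul_one]
  have hz : v ^ ((N : ℤ) - 1 - 2 * k) * v ^ ((j : ℤ) * ((N : ℤ) - 2 - j)) =
      v ^ ((k : ℤ) * ((N : ℤ) - 2 - k)) := by
    rw [← zpow_add₀ hv]
    congr 1
    have hj' : (j : ℤ) = (N : ℤ) - 1 - k := by omega
    rw [hj']
    ring
  rw [inv_mul_eq_iff_eq_mul₀ hkj]
  unfold kap
  rw [h1, h2]
  calc (-1 : ℂ) ^ k * v ^ ((k : ℤ) * ((N : ℤ) - 2 - k)) * (brf v k * brf v j / brf v (N - 1)) =
      ((-1 : ℂ) ^ (N - 1) * (-1) ^ j) * (v ^ ((N : ℤ) - 1 - 2 * k) *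
        v ^ ((j : ℤ) * ((N : ℤ) - 2 - j))) * (brf v k * brf v j / brf v (N - 1)) := by rw [hs, hz]
    _ = _ := by ring

lemma qdim {v : ℂ} (hv : v ≠ 0) (n : ℕ) :
    br v 1 * ∑ k ∈ range n, v ^ ((n : ℤ) - 1 - 2 * k) = br v n := by
  have h1 : ∀ k ∈ range n, br v 1 * v ^ ((n : ℤ) - 1 - 2 * k) =
      v ^ ((n : ℤ) - 2 * k) - v ^ ((n : ℤ) - 2 * ((k + 1 : ℕ) : ℤ)) := by
    intro k _
    unfold br
    rw [sub_mul, ← zpow_add₀ hv, ← zpow_add₀ hv]
    congr 2
    · ring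
    · push_cast
      ring
  rw [Finset.mul_sum, Finset.sum_congr rfl h1,
    Finset.sum_range_sub' (fun k : ℕ => v ^ ((n : ℤ) - 2 * (k : ℤ))) n]
  have e1 : (n : ℤ) - 2 * ((0 : ℕ) : ℤ) = n := by simp
  have e2 : (n : ℤ) - 2 * (n : ℤ) = -(n : ℤ) := by ring
  beta_reduce
  rw [e1, e2]
  rfl

lemma pr'_F0 {v : ℂ} (hv : v ≠ 0) (hb : ∀ k : ℕ, 0 < k → k < N → br v k ≠ 0) (hN : 0 < N)
    (hb1 : br v 1 ≠ 0) : pr' v hN (FF v N 0) = (-1) ^ (N - 1) * br v N / br v 1 := by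
  have h0 : FF v N 0 = F0 v N := rfl
  have h1 : pr' v hN (FF v N 0) =
      ∑ k : Fin N, (-1 : ℂ) ^ (N - 1) * v ^ ((N : ℤ) - 1 - 2 * ((k : ℕ) : ℤ)) := by
    rw [h0]
    unfold pr'
    rw [Fintype.sum_prod_type]
    apply Finset.sum_congr rfl
    intro k _
    have hk := k.isLt
    rw [Finset.sum_eq_single (⟨N - 1 - (k : ℕ), by omega⟩ : Fin N)]
    · unfold cap F0 cup
      rw [if_pos rfl, if_pos (by simp only; omega), if_pos (by simp only; omega)]
      exact kap_ratio hv hb (by simp only; omega) hN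
    · intro j _ hj
      unfold cap
      rw [if_neg, zero_mul]
      intro hc
      apply hj
      apply Fin.ext
      simp only at hc ⊢
      omega
    · intro h
      exact absurd (Finset.mem_univ _) h
  rw [h1, Fin.sum_univ_eq_sum_range (fun k : ℕ => (-1 : ℂ) ^ (N - 1) *
    v ^ ((N : ℤ) - 1 - 2 * (k : ℤ))) N, ← Finset.mul_sum, mul_div_assoc]
  congr 1
  rw [eq_div_iff hb1, mul_comm]
  exact qdim hv N

lemma ui_sub {v : ℂ} (hv : v ≠ 0) (i : ℕ) : ui v 0 - ui v i = -(br v i * br v ((i + 1 : ℕ) : ℤ)) := by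
  unfold ui br
  have e1 : v ^ (2 * (i : ℤ) + 1) = v ^ (i : ℤ) * v ^ (i : ℤ) * v := by
    rw [← zpow_add₀ hv, ← zpow_add_one₀ hv]
    congr 1
    ring
  have e2 : v ^ (-(2 * (i : ℤ) + 1)) = (v ^ (i : ℤ))⁻¹ * (v ^ (i : ℤ))⁻¹ * v⁻¹ := by
    rw [← _root_.zpow_neg, ← _root_.zpow_neg_one, ← zpow_add₀ hv, ← zpow_add₀ hv]
    congr 1
    ring
  have e3 : v ^ (((i + 1 : ℕ) : ℤ)) = v ^ (i : ℤ) * v := by
    rw [← zpow_add_one₀ hv]
    congr 1
  have e4 : v ^ (-((i + 1 : ℕ) : ℤ)) = (v ^ (i : ℤ))⁻¹ * v⁻¹ := by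
    rw [_root_.zpow_neg, e3, mul_inv]
  have e5 : v ^ (2 * ((0 : ℕ) : ℤ) + 1) = v := by simp
  have e6 : v ^ (-(2 * ((0 : ℕ) : ℤ) + 1)) = v⁻¹ := by simp
  rw [e1, e2, e3, e4, e5, e6, _root_.zpow_neg]
  have h1 : v ^ (i : ℤ) ≠ 0 := zpow_ne_zero _ hv
  generalize v ^ (i : ℤ) = x at *
  field_simp
  ring

lemma pr'_FF (hg : Gen u) (hN : 0 < N) (n : ℕ) : n < N →
    pr' (u ^ 2) hN (FF (u ^ 2) N n) = Pool.Agent.W711.HT.qn N (u ^ 2) n := by
  have hv : u ^ 2 ≠ 0 := pow_ne_zero 2 hg.1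
  have hb : ∀ k : ℕ, 0 < k → k < N → br (u ^ 2) k ≠ 0 := fun k hk _ => hg.2 k hk
  have hb1 : br (u ^ 2) 1 ≠ 0 := by
    have := hg.2 1 one_pos
    simpa using this
  induction n with
  | zero =>
    intro _
    rw [pr'_F0 hv hb hN hb1]
    unfold Pool.Agent.W711.HT.qn
    have e1 : ((0 + 1 : ℕ) : ℤ) = 1 := by norm_num
    rw [Finset.range_zero, Finset.prod_empty, mul_one, e1]
  | succ n ih =>
    intro hn
    have h1 := pr'_23 hv hb hN (FF (u ^ 2) N (n + 1))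
    rw [D_succ hv hb n, pr'_add, pr'_smul, pr'_smul, ih (by omega)] at h1
    have h2 := ui_sub hv (n + 1)
    have h3 : ci (u ^ 2) N (n + 1) * Pool.Agent.W711.HT.qn N (u ^ 2) n =
        -(br (u ^ 2) ((n + 1 : ℕ) : ℤ) * br (u ^ 2) ((n + 1 + 1 : ℕ) : ℤ)) *
          pr' (u ^ 2) hN (FF (u ^ 2) N (n + 1)) := by
      linear_combination h1 + pr' (u ^ 2) hN (FF (u ^ 2) N (n + 1)) * h2
    have hn1 : br (u ^ 2) ((n + 1 : ℕ) : ℤ) ≠ 0 := hg.2 (n + 1) (by omega)
    have hn2 : br (u ^ 2) ((n + 1 + 1 : ℕ) : ℤ) ≠ 0 := hg.2 (n + 1 + 1) (by omega)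
    have h4 : ci (u ^ 2) N (n + 1) * Pool.Agent.W711.HT.qn N (u ^ 2) n =
        -(br (u ^ 2) ((n + 1 : ℕ) : ℤ) * br (u ^ 2) ((n + 1 + 1 : ℕ) : ℤ)) *
          Pool.Agent.W711.HT.qn N (u ^ 2) (n + 1) := by
      unfold Pool.Agent.W711.HT.qn ci
      rw [Finset.prod_range_succ]
      generalize br (u ^ 2) ((n + 1 : ℕ) : ℤ) = A at *
      generalize br (u ^ 2) ((n + 1 + 1 : ℕ) : ℤ) = B at *
      field_simp
    have h5 : -(br (u ^ 2) ((n + 1 : ℕ) : ℤ) * br (u ^ 2) ((n + 1 + 1 : ℕ) : ℤ)) ≠ 0 :=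
      neg_ne_zero.2 (mul_ne_zero hn1 hn2)
    exact mul_left_cancel₀ h5 (h3.symm.trans h4)

theorem generic (hg : Gen u) (hN : 0 < N) (as : List ℕ) :
    Pool.Agent.W711.HT.jn as N (u ^ 2) = KK (u ^ 2) N ^ (Pool.Agent.W711.HT.alt true as) *
      (if as.length % 2 = 0 then
        Pool.Agent.W711.HT.sv N (u ^ 2) true as (fun i => if i = 0 then 1 else 0) 0
      else ∑ n ∈ range N, Pool.Agent.W711.HT.qn N (u ^ 2) n *
        Pool.Agent.W711.HT.sv N (u ^ 2) true as (fun i => if i = 0 then 1 else 0) n) := by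
  have hv : u ^ 2 ≠ 0 := pow_ne_zero 2 hg.1
  have hb : ∀ k : ℕ, 0 < k → k < N → br (u ^ 2) k ≠ 0 := fun k hk _ => hg.2 k hk
  obtain ⟨φ, ψ, h⟩ := Pool.Agent.H897R.J.taskDec Pool.Agent.H345J.taskMod Pool.Agent.H345J.taskInt
    u hg N
  have h0 : F0 (u ^ 2) N = ∑ n ∈ range N, (if n = 0 then (1 : ℂ) else 0) • FF (u ^ 2) N n := by
    rw [Finset.sum_eq_single 0]
    · rw [if_pos rfl, one_smul]
      rfl
    · intro n _ hn
      rw [if_neg hn, zero_smul]
    · intro hc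
      exact absurd (Finset.mem_range.2 hN) hc
  have h1 := MW_act hg h as true (fun i => if i = 0 then 1 else 0)
  rw [← h0] at h1
  unfold Pool.Agent.W711.HT.jn
  rw [dif_pos hN, tang_eq, tang'_eq, h1]
  by_cases hl : as.length % 2 = 0
  · rw [if_pos hl, if_pos hl, pr_smul, pr_sum]
    congr 1
    rw [Finset.sum_eq_single 0]
    · rw [pr_FF hv hb hN, if_pos rfl, mul_one]
    · intro n _ hn
      rw [pr_FF hv hb hN, if_neg hn, mul_zero]
    · intro hc
      exact absurd (Finset.mem_range.2 hN) hc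
  · rw [if_neg hl, if_neg hl, pr'_smul, pr'_sum]
    congr 1
    apply Finset.sum_congr rfl
    intro n hn
    rw [pr'_FF hg hN n (Finset.mem_range.1 hn), mul_comm]

end gen

theorem alg : Pool.Agent.W711.HT.S_ALG := by
  intro as N v hN hv hv1
  obtain ⟨u, hu⟩ : ∃ u : ℂ, u ^ 2 = v := ⟨v ^ (1 / 2 : ℂ), by
    rw [← Complex.cpow_nat_mul]
    norm_num⟩
  have hg : Gen u := by
    refine ⟨fun h0 => hv (by rw [← hu, h0]; norm_num), fun n hn hbr => ?_⟩
    rw [hu] at hbr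
    unfold br at hbr
    have h1 : v ^ (n : ℤ) = v ^ (-(n : ℤ)) := sub_eq_zero.1 hbr
    have h2 : v ^ (2 * n) = 1 := by
      have : v ^ (2 * n) = v ^ (n : ℤ) * v ^ (n : ℤ) := by
        rw [← zpow_add₀ hv, ← two_mul]
        exact_mod_cast (zpow_natCast v (2 * n)).symm
      rw [this]
      nth_rewrite 2 [h1]
      rw [← zpow_add₀ hv, add_neg_cancel, zpow_zero]
    have h3 : ‖v‖ ^ (2 * n) = 1 := by rw [← norm_pow, h2, norm_one]
    exact hv1 ((pow_eq_one_iff_of_nonneg (norm_nonneg v) (by omega)).1 h3)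
  have := generic hg hN as
  rwa [hu] at this

end Pool.Agent.W349.HT
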