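import Pool.Agent.W711.HT.Rt
import Pool.Agent.W709.VC.Gam3
import Pool.Agent.W973.VcRect

/-!
# Part RTGDL of project HT: the limit of the divided differences at the root of unity
(helper349; adapted from `Pool.Agent.W709.VC.Gam2`, `Gam3`)
-/

set_option autoImplicit false

namespace Pool.Agent.W349.HT

open Filter Finset EvenVol Pool.Agent.W709.VC Pool.Agent.H112R4.VL MeasureTheory
open scoped Real Topology

/-- integer power of the exponential -/
noncomputable def EZ (a : ℤ) (N : ℕ) (σ φ : ℂ) : ℂ :=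
  Complex.exp (a * (Complex.I * N * (φ - π) ^ 2 * σ / (4 * π)))

noncomputable def PZ (a : ℤ) (N : ℕ) (p : ℂ × ℂ) (φ : ℂ) : ℂ := EZ a N p.2 φ * (-2 * Complex.sin φ)

/-- the product over a finite set of nodes -/
noncomputable def QZ (N : ℕ) (T : Finset ℕ) (p : ℂ × ℂ) (φ : ℂ) : ℂ :=
  ∏ j ∈ T, (2 * Complex.cos φ - 2 * Complex.cos (zz N p.1 j))

lemma EZ_eq (a : ℤ) (N : ℕ) (σ φ : ℂ) : EZ a N σ φ = EE N σ φ ^ a := by
  unfold EZ EE
  rw [← Complex.exp_int_mul]

lemma EZ_diff (a : ℤ) (N : ℕ) (σ : ℂ) : Differentiable ℂ (EZ a N σ) := by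
  unfold EZ
  fun_prop

lemma EZ_symm (a : ℤ) (N : ℕ) (σ z : ℂ) : EZ a N σ (2 * π - z) = EZ a N σ z := by
  unfold EZ
  congr 1
  ring

lemma PZ_cont (a : ℤ) (N : ℕ) : Continuous (Function.uncurry (PZ a N)) := by
  unfold PZ EZ Function.uncurry
  fun_prop

lemma QZ_cont (N : ℕ) (T : Finset ℕ) : Continuous (Function.uncurry (QZ N T)) := by
  unfold QZ zz Function.uncurry
  fun_prop

/-- The residue sum. -/
lemma rect_QZ (a : ℤ) (N : ℕ) (T : Finset ℕ) (hT : T.Nonempty) (s σ : ℂ) (h : ℝ)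
    (hnode : ∀ j ∈ T, 0 < (zz N s j).re ∧ (zz N s j).re < 2 * π ∧ |(zz N s j).im| < h)
    (hinj : Set.InjOn (fun j : ℕ => 2 * Complex.cos (zz N s j)) T) :
    Pool.Agent.W709.VC.rect (fun φ => PZ a N (s, σ) φ / QZ N T (s, σ) φ) 0 (2 * π) (-h) h =
      4 * π * Complex.I * ∑ k ∈ T,
        Lagrange.nodalWeight T (fun j : ℕ => 2 * Complex.cos (zz N s j)) k *
          EZ a N σ (zz N s k) := by
  have hR := Pool.Agent.W973.VcRect.rect
  have hf : Differentiable ℂ (fun z => EZ a N σ z) := EZ_diff a N σ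
  have step1 : Pool.Agent.W709.VC.rect (fun φ => PZ a N (s, σ) φ / QZ N T (s, σ) φ) 0 (2 * π) (-h) h =
      Pool.Agent.W709.VC.rect (fun φ => ∑ k ∈ T,
        Lagrange.nodalWeight T (fun j : ℕ => 2 * Complex.cos (zz N s j)) k *
          (EZ a N σ φ * KK (zz N s k) φ + EZ a N σ φ * KK (2 * π - zz N s k) φ))
        0 (2 * π) (-h) h := by
    apply rect_congr
    intro φ hφ
    have hne : ∀ j ∈ T, Complex.cos φ ≠ Complex.cos (zz N s j) := fun j hj =>
      bd_ne (hnode j hj).1 (hnode j hj).2.1 (hnode j hj).2.2 hφ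
    have hne2 : ∀ j ∈ T, 2 * Complex.cos φ ≠ 2 * Complex.cos (zz N s j) := by
      intro j hj h3
      exact hne j hj (mul_left_cancel₀ two_ne_zero h3)
    have h1 := Lagrange.eval_interpolate_not_at_node (s := T)
      (v := fun j : ℕ => 2 * Complex.cos (zz N s j)) (1 : ℕ → ℂ) (x := 2 * Complex.cos φ) hne2
    rw [Lagrange.interpolate_one hinj hT, Polynomial.eval_one, Lagrange.eval_nodal] at h1
    have hQ : QZ N T (s, σ) φ = ∏ j ∈ T, (2 * Complex.cos φ - 2 * Complex.cos (zz N s j)) :=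
      rfl
    rw [← hQ] at h1
    have hQ0 : QZ N T (s, σ) φ ≠ 0 := by
      intro h0
      rw [h0] at h1
      simp at h1
    show PZ a N (s, σ) φ / QZ N T (s, σ) φ = _
    have h2 : (QZ N T (s, σ) φ)⁻¹ = ∑ i ∈ T, Lagrange.nodalWeight T
        (fun j : ℕ => 2 * Complex.cos (zz N s j)) i * (2 * Complex.cos φ - 2 * Complex.cos (zz N s i))⁻¹ := by
      rw [inv_eq_one_div, div_eq_iff hQ0, mul_comm]
      simpa using h1
    rw [div_eq_mul_inv, h2, Finset.mul_sum]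
    apply Finset.sum_congr rfl
    intro k hk
    rw [← mul_add, ← kernel_eq (hne k hk)]
    unfold PZ
    ring
  rw [step1]
  have hRI1 : ∀ k ∈ T, RI (fun φ => EZ a N σ φ * KK (zz N s k) φ) 0 (2 * π) (-h) h := by
    intro k hk
    apply RI_of_cont
    intro z hz
    have h1 := bd_ne (hnode k hk).1 (hnode k hk).2.1 (hnode k hk).2.2 hz
    exact (hf.continuous.continuousAt).mul (KK_cont (sin_ne h1).1)
  have hRI2 : ∀ k ∈ T,
      RI (fun φ => EZ a N σ φ * KK (2 * π - zz N s k) φ) 0 (2 * π) (-h) h := by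
    intro k hk
    apply RI_of_cont
    intro z hz
    have h1 := bd_ne (hnode k hk).1 (hnode k hk).2.1 (hnode k hk).2.2 hz
    refine (hf.continuous.continuousAt).mul (KK_cont ?_)
    have e1 : (z - (2 * π - zz N s k)) / 2 = (z + zz N s k) / 2 - π := by ring
    rw [e1, Complex.sin_sub_pi]
    exact neg_ne_zero.2 (sin_ne h1).2
  have hRI3 : ∀ k ∈ T, RI (fun φ =>
      Lagrange.nodalWeight T (fun j : ℕ => 2 * Complex.cos (zz N s j)) k *
      (EZ a N σ φ * KK (zz N s k) φ + EZ a N σ φ * KK (2 * π - zz N s k) φ))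
      0 (2 * π) (-h) h := by
    intro k hk
    have := RI_add (hRI1 k hk) (hRI2 k hk)
    exact ⟨this.1.const_mul _, this.2.1.const_mul _, this.2.2.1.const_mul _,
      this.2.2.2.const_mul _⟩
  rw [rect_sum _ hRI3, Finset.mul_sum]
  apply Finset.sum_congr rfl
  intro k hk
  rw [rect_mul, rect_add (hRI1 k hk) (hRI2 k hk)]
  obtain ⟨g1, g2, g3⟩ := hnode k hk
  have r1 := hR (fun z => EZ a N σ z) (zz N s k) h hf g1 g2 g3
  have r2 := hR (fun z => EZ a N σ z) (2 * π - zz N s k) h hf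
    (by simp; linarith) (by simp; linarith) (by simpa using g3)
  have r1' : Pool.Agent.W709.VC.rect (fun φ => EZ a N σ φ * KK (zz N s k) φ) 0 (2 * π) (-h) h =
      2 * π * Complex.I * EZ a N σ (zz N s k) := r1
  have r2' : Pool.Agent.W709.VC.rect (fun φ => EZ a N σ φ * KK (2 * π - zz N s k) φ) 0 (2 * π) (-h) h =
      2 * π * Complex.I * EZ a N σ (2 * π - zz N s k) := r2
  rw [r1', r2', EZ_symm]
  ring

lemma zz_one (N j : ℕ) : zz N 1 j = ((Pool.Agent.W709.VC.phi N j : ℝ) : ℂ) := by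
  unfold zz Pool.Agent.W709.VC.phi
  push_cast
  ring

/-- the integrand at the root of unity -/
noncomputable def FZ (a : ℤ) (N l n : ℕ) (ψ : ℂ) : ℂ :=
  Pool.Agent.W711.HT.Ea a N ψ * Pool.Agent.W711.HT.Rp N (N - 1 - n) ψ *
    Pool.Agent.W711.HT.Rp N l ψ * Pool.Agent.W711.HT.kr N ψ

lemma RR_Rp (N d : ℕ) (ψ : ℂ) : RR N d ψ = (-1) ^ d * Pool.Agent.W711.HT.Rp N d ψ := by
  unfold RR Pool.Agent.W711.HT.Rp
  rw [← Finset.card_range d, ← Finset.prod_const, Finset.card_range, ← Finset.prod_mul_distrib]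
  refine Finset.prod_congr rfl fun j _ => ?_
  show -2 * Complex.cos ψ - 2 * (Real.cos (Pool.Agent.W709.VC.phi N j) : ℂ) =
    -1 * (2 * Complex.cos ψ + 2 * (Real.cos (Pool.Agent.W709.VC.phi N j) : ℂ))
  ring

lemma bd_shift {ψ : ℂ} {h : ℝ} (hψ : ψ ∈ Bd (-π) π (-h) h) : ψ + π ∈ Bd 0 (2 * π) (-h) h := by
  rcases hψ with ⟨x, hx, hz⟩ | ⟨x, hx, hz⟩ | ⟨y, hy, hz⟩ | ⟨y, hy, hz⟩
  · refine Or.inl ⟨x + π, ?_, ?_⟩
    · rw [Set.uIcc_of_le (by linarith [Real.pi_pos])] at hx ⊢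
      constructor <;> linarith [hx.1, hx.2]
    · rw [hz]; push_cast; ring
  · refine Or.inr (Or.inl ⟨x + π, ?_, ?_⟩)
    · rw [Set.uIcc_of_le (by linarith [Real.pi_pos])] at hx ⊢
      constructor <;> linarith [hx.1, hx.2]
    · rw [hz]; push_cast; ring
  · refine Or.inr (Or.inr (Or.inl ⟨y, hy, ?_⟩))
    rw [hz]; push_cast; ring
  · refine Or.inr (Or.inr (Or.inr ⟨y, hy, ?_⟩))
    rw [hz]; push_cast; ring

lemma RR_ne {N : ℕ} {ψ : ℂ} {h : ℝ} (hh : 0 < h) (hψ : ψ ∈ Bd (-π) π (-h) h) {d : ℕ}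
    (hd : d ≤ N) : RR N d ψ ≠ 0 := by
  have hφ := bd_shift hψ
  have hnz : ∀ j, j < N → Complex.cos (ψ + π) ≠
      Complex.cos ((Pool.Agent.W709.VC.phi N j : ℝ) : ℂ) := by
    intro j hj
    have h1 := phi_mem hj
    exact bd_ne (z := ((Pool.Agent.W709.VC.phi N j : ℝ) : ℂ)) (by simpa using h1.1)
      (by simpa using h1.2) (by simpa using hh) hφ
  unfold RR
  rw [Finset.prod_ne_zero_iff]
  intro j hj
  rw [Finset.mem_range] at hj
  intro h0
  apply hnz j (by omega)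
  rw [Complex.cos_add_pi, ← Complex.ofReal_cos]
  linear_combination (1 / 2) * h0

/-- identification with `FZ` -/
lemma rect_FZ (a : ℤ) {N l n : ℕ} (hn : n < N) (hl : l ≤ n) {h : ℝ} (hh : 0 < h) :
    Pool.Agent.W709.VC.rect (fun φ => PZ a N (1, 1) φ / QZ N (Icc l n) (1, 1) φ) 0 (2 * π) (-h) h =
      (-1) ^ (N - 1 - n + l) * Pool.Agent.W709.VC.rect (FZ a N l n) (-π) π (-h) h := by
  have hN : 0 < N := by omega
  have hN0 : (N : ℂ) ≠ 0 := by exact_mod_cast hN.ne'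
  have hs := rect_shift (fun φ => PZ a N (1, 1) φ / QZ N (Icc l n) (1, 1) φ) (-π) π (-h) h π
  have e0 : -π + π = 0 := by ring
  have e1 : π + π = 2 * π := by ring
  rw [e0, e1] at hs
  rw [← hs, ← rect_mul]
  apply rect_congr
  intro ψ hψ
  have hQ : RR N l ψ * QZ N (Icc l n) (1, 1) (ψ + π) = RR N (n + 1) ψ := by
    have h1 : QZ N (Icc l n) (1, 1) (ψ + π) =
        ∏ j ∈ Ico l (n + 1),
          (-2 * Complex.cos ψ - 2 * (Real.cos (Pool.Agent.W709.VC.phi N j) : ℂ)) := by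
      unfold QZ
      have h2 : Icc l n = Ico l (n + 1) := by
        ext i
        rw [Finset.mem_Icc, Finset.mem_Ico]
        omega
      rw [h2]
      apply Finset.prod_congr rfl
      intro j _
      show 2 * Complex.cos (ψ + π) - 2 * Complex.cos (zz N 1 j) = _
      rw [zz_one, Complex.cos_add_pi, Complex.ofReal_cos]
      ring
    rw [h1]
    unfold RR
    exact Finset.prod_range_mul_prod_Ico _ (by omega)
  have hP : PZ a N (1, 1) (ψ + π) =
      Pool.Agent.W711.HT.Ea a N ψ * (2 * Complex.sin ψ) := by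
    unfold PZ EZ Pool.Agent.W711.HT.Ea
    show Complex.exp (a * (Complex.I * N * (ψ + π - π) ^ 2 * 1 / (4 * π))) *
      (-2 * Complex.sin (ψ + π)) = _
    rw [Complex.sin_add_pi]
    have e3 : (a : ℂ) * (Complex.I * N * (ψ + π - π) ^ 2 * 1 / (4 * π)) =
        Complex.I * a * N * ψ ^ 2 / (4 * π) := by ring
    rw [e3]
    ring
  show PZ a N (1, 1) (ψ + π) / QZ N (Icc l n) (1, 1) (ψ + π) = _
  have h1 := RR_ne (N := N) hh hψ (d := n + 1) (by omega)
  have h2 := RR_ne (N := N) hh hψ (d := N - 1 - n) (by omega)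
  have h3 := RR_ne (N := N) hh hψ (d := l) (by omega)
  have h4 : QZ N (Icc l n) (1, 1) (ψ + π) ≠ 0 := by
    intro h0
    rw [h0, mul_zero] at hQ
    exact h1 hQ.symm
  have h5 : (-1 : ℂ) ^ (N - 1 - n + l) * (Pool.Agent.W711.HT.Rp N (N - 1 - n) ψ *
      Pool.Agent.W711.HT.Rp N l ψ) = RR N (N - 1 - n) ψ * RR N l ψ := by
    rw [RR_Rp, RR_Rp, pow_add]
    ring
  rw [hP]
  unfold FZ Pool.Agent.W711.HT.kr
  rw [← prod_phi hN ψ]
  have h6 : (-1 : ℂ) ^ (N - 1 - n + l) * (Pool.Agent.W711.HT.Ea a N ψ *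
      Pool.Agent.W711.HT.Rp N (N - 1 - n) ψ * Pool.Agent.W711.HT.Rp N l ψ *
      (2 * Complex.sin ψ / RR N N ψ)) = Pool.Agent.W711.HT.Ea a N ψ *
      ((-1 : ℂ) ^ (N - 1 - n + l) * (Pool.Agent.W711.HT.Rp N (N - 1 - n) ψ *
      Pool.Agent.W711.HT.Rp N l ψ)) * (2 * Complex.sin ψ / RR N N ψ) := by ring
  rw [h6, h5, RR_split hn ψ, ← hQ]
  field_simp

lemma Rp_even (N d : ℕ) (ψ : ℂ) :
    Pool.Agent.W711.HT.Rp N d (-ψ) = Pool.Agent.W711.HT.Rp N d ψ := by
  unfold Pool.Agent.W711.HT.Rp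
  simp only [Complex.cos_neg]

lemma kr_odd (N : ℕ) (ψ : ℂ) :
    Pool.Agent.W711.HT.kr N (-ψ) = -Pool.Agent.W711.HT.kr N ψ := by
  unfold Pool.Agent.W711.HT.kr
  have h1 : Complex.cos (N * (-ψ + π) / 2) ^ 2 = Complex.cos (N * (ψ + π) / 2) ^ 2 := by
    rw [Complex.cos_sq, Complex.cos_sq]
    have h2 : 2 * ((N : ℂ) * (-ψ + π) / 2) = (N : ℕ) * (2 * π) - 2 * (N * (ψ + π) / 2) := by ring
    rw [h2, Complex.cos_nat_mul_two_pi_sub]
  rw [h1, Complex.sin_neg]
  ring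

lemma FZ_odd (a : ℤ) (N l n : ℕ) (ψ : ℂ) : FZ a N l n (-ψ) = -FZ a N l n ψ := by
  unfold FZ
  rw [Rp_even, Rp_even, kr_odd]
  have h1 : Pool.Agent.W711.HT.Ea a N (-ψ) = Pool.Agent.W711.HT.Ea a N ψ := by
    unfold Pool.Agent.W711.HT.Ea
    congr 1
    ring
  rw [h1]
  ring

lemma FZ_RI (a : ℤ) {N l n : ℕ} (hN : 0 < N) {h : ℝ} (hh : 0 < h) :
    RI (FZ a N l n) (-π) π (-h) h := by
  apply RI_of_cont
  intro z hz
  have h1 := RR_ne (N := N) hh hz (d := N) le_rfl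
  rw [prod_phi hN] at h1
  unfold FZ Pool.Agent.W711.HT.kr Pool.Agent.W711.HT.Ea Pool.Agent.W711.HT.Rp
  refine ContinuousAt.mul (by fun_prop) (ContinuousAt.div (by fun_prop) (by fun_prop) h1)

lemma rect_upp {f : ℂ → ℂ} {h : ℝ} (hh : 0 < h) (hodd : ∀ z, f (-z) = -f z)
    (hRI : RI f (-π) π (-h) h) :
    Pool.Agent.W709.VC.rect f (-π) π (-h) h = -2 * Pool.Agent.W711.HT.upp h f := by
  obtain ⟨_, _, i3, i4⟩ := hRI
  have e1 : (∫ x in (-π)..π, f (x + ((-h : ℝ) : ℂ) * Complex.I)) =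
      -∫ x in (-π)..π, f (x + (h : ℂ) * Complex.I) := by
    have h1 := intervalIntegral.integral_comp_neg (a := -π) (b := π)
      (fun x : ℝ => f (x + ((-h : ℝ) : ℂ) * Complex.I))
    rw [neg_neg] at h1
    rw [← h1, ← intervalIntegral.integral_neg]
    apply intervalIntegral.integral_congr
    intro x _
    show f (((-x : ℝ) : ℂ) + ((-h : ℝ) : ℂ) * Complex.I) = -f (x + (h : ℂ) * Complex.I)
    rw [← hodd]
    congr 1
    push_cast
    ring
  have sub1 : Set.uIcc (-h) 0 ⊆ Set.uIcc (-h) h := by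
    rw [Set.uIcc_of_le (by linarith), Set.uIcc_of_le (by linarith)]
    exact Set.Icc_subset_Icc le_rfl hh.le
  have sub2 : Set.uIcc 0 h ⊆ Set.uIcc (-h) h := by
    rw [Set.uIcc_of_le hh.le, Set.uIcc_of_le (by linarith)]
    exact Set.Icc_subset_Icc (by linarith) le_rfl
  have key : ∀ b : ℝ, (∫ y in (-h)..0, f (b + y * Complex.I)) =
      -∫ y in (0:ℝ)..h, f (((-b : ℝ) : ℂ) + y * Complex.I) := by
    intro b
    have h1 := intervalIntegral.integral_comp_neg (a := (0:ℝ)) (b := h)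
      (fun y : ℝ => f (b + y * Complex.I))
    rw [neg_zero] at h1
    rw [← h1, ← intervalIntegral.integral_neg]
    apply intervalIntegral.integral_congr
    intro x _
    show f ((b : ℂ) + ((-x : ℝ) : ℂ) * Complex.I) = -f (((-b : ℝ) : ℂ) + x * Complex.I)
    rw [← hodd]
    congr 1
    push_cast
    ring
  have e2 : (∫ y in (-h)..h, f (π + y * Complex.I)) =
      (∫ y in (0:ℝ)..h, f (π + y * Complex.I)) - ∫ y in (0:ℝ)..h, f (((-π : ℝ) : ℂ) + y * Complex.I) := by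
    rw [← intervalIntegral.integral_add_adjacent_intervals (i3.mono_set sub1) (i3.mono_set sub2),
      key π]
    ring
  have e3 : (∫ y in (-h)..h, f (((-π : ℝ) : ℂ) + y * Complex.I)) =
      (∫ y in (0:ℝ)..h, f (((-π : ℝ) : ℂ) + y * Complex.I)) - ∫ y in (0:ℝ)..h, f (π + y * Complex.I) := by
    rw [← intervalIntegral.integral_add_adjacent_intervals (i4.mono_set sub1) (i4.mono_set sub2),
      key (-π), neg_neg]
    ring
  unfold Pool.Agent.W709.VC.rect Pool.Agent.W711.HT.upp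
  rw [e1, e2, e3]
  push_cast
  ring

lemma un_uu (v : ℂ) (j : ℕ) : Pool.Agent.W711.HT.un v j = uu v (j : ℤ) := rfl

lemma vN_v0 (N : ℕ) : Pool.Agent.W711.HT.vN N = v0 N := rfl

lemma near {N : ℕ} (hN : 2 ≤ N) (a : ℤ) {l n : ℕ} (hl : l ≤ n) (hn : n < N) {h : ℝ} (hh : 0 < h) :
    ∀ᶠ v in 𝓝[≠] (v0 N), Pool.Agent.W711.HT.gd v a l n =
      Cs N (sv N v, (sv N v)⁻¹) ^ a *
        (Pool.Agent.W709.VC.rect (fun φ => PZ a N (sv N v, (sv N v)⁻¹) φ /
          QZ N (Icc l n) (sv N v, (sv N v)⁻¹) φ) 0 (2 * π) (-h) h / (4 * π * Complex.I)) := by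
  have hv0 : v0 N ≠ 0 := TE.v0_ne hN
  have hNp : 0 < N := by omega
  have hne : ∀ᶠ v in 𝓝[≠] (v0 N), v ≠ 0 :=
    (continuousAt_id.eventually_ne hv0).filter_mono nhdsWithin_le_nhds
  have hsne : ∀ᶠ v in 𝓝[≠] (v0 N), sv N v ≠ 0 := by
    have : sv N (v0 N) ≠ 0 := by rw [sv_v0 hN]; exact one_ne_zero
    exact ((sv_cont hN).eventually_ne this).filter_mono nhdsWithin_le_nhds
  have hall : ∀ᶠ v in 𝓝[≠] (v0 N), ∀ j ∈ range (2 * N - 1), br v ((j : ℤ) + 1) ≠ 0 := by
    rw [Filter.eventually_all_finset]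
    intro j hj
    rw [Finset.mem_range] at hj
    by_cases hjN : j + 1 = N
    · have := TE.brN_ne hN
      rw [show ((j : ℤ) + 1) = (N : ℤ) by exact_mod_cast hjN]
      exact this
    · have h1 : br (v0 N) ((j : ℤ) + 1) ≠ 0 := by
        apply TE.br_ne hN
        intro hd
        have hd' : N ∣ j + 1 := by exact_mod_cast hd
        obtain ⟨c, hc⟩ := hd'
        have : c < 2 := by
          by_contra hh
          push Not at hh
          have := Nat.mul_le_mul_left N hh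
          omega
        interval_cases c <;> omega
      exact ((TE.br_diff _ hv0).continuousAt.eventually_ne h1).filter_mono nhdsWithin_le_nhds
  have hnode : ∀ᶠ v in 𝓝[≠] (v0 N), ∀ j ∈ range (n + 1),
      0 < (zz N (sv N v) j).re ∧ (zz N (sv N v) j).re < 2 * π ∧ |(zz N (sv N v) j).im| < h := by
    rw [Filter.eventually_all_finset]
    intro j hj
    rw [Finset.mem_range] at hj
    have hc : ContinuousAt (fun v => zz N (sv N v) j) (v0 N) := by
      unfold zz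
      exact ((continuousAt_const.mul (sv_cont hN)).mul continuousAt_const).div_const _
    have hval : zz N (sv N (v0 N)) j = ((Pool.Agent.W709.VC.phi N j : ℝ) : ℂ) := by
      rw [sv_v0 hN]
      exact zz_one N j
    have h1 := phi_mem (N := N) (j := j) (by omega)
    have hre : ContinuousAt (fun v => (zz N (sv N v) j).re) (v0 N) :=
      Complex.continuous_re.continuousAt.comp hc
    have him : ContinuousAt (fun v => |(zz N (sv N v) j).im|) (v0 N) :=
      (Complex.continuous_im.continuousAt.comp hc).abs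
    have a1 : 0 < (zz N (sv N (v0 N)) j).re := by rw [hval]; simpa using h1.1
    have a2 : (zz N (sv N (v0 N)) j).re < 2 * π := by rw [hval]; simpa using h1.2
    have a3 : |(zz N (sv N (v0 N)) j).im| < h := by rw [hval]; simpa using hh
    have b1 := hre.eventually_const_lt a1
    have b2 := hre.eventually_lt_const a2
    have b3 := him.eventually_lt_const a3
    exact ((b1.and (b2.and b3))).filter_mono nhdsWithin_le_nhds
  filter_upwards [hne, hsne, hall, hnode] with v hv hs hbv hnd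
  have hb : brf v (2 * n + 1) ≠ 0 := by
    unfold brf
    rw [Finset.prod_ne_zero_iff]
    intro j hj
    rw [Finset.mem_range] at hj
    exact hbv j (Finset.mem_range.2 (by omega))
  have hfun : (fun j : ℕ => uu v (j : ℤ)) = (fun j : ℕ => 2 * Complex.cos (zz N (sv N v) j)) := by
    funext j
    exact uu_zz hNp hv j
  have hsub : ∀ j ∈ Icc l n, j ∈ range (n + 1) := by
    intro j hj
    rw [Finset.mem_Icc] at hj
    rw [Finset.mem_range]
    omega
  have hinj := uu_inj hv hb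
  rw [hfun] at hinj
  have hinj' : Set.InjOn (fun j : ℕ => 2 * Complex.cos (zz N (sv N v) j)) (Icc l n) :=
    hinj.mono (fun j hj => hsub j hj)
  rw [rect_QZ a N (Icc l n) ⟨l, Finset.mem_Icc.2 ⟨le_rfl, hl⟩⟩ (sv N v) (sv N v)⁻¹ h
    (fun j hj => hnd j (hsub j hj)) hinj']
  have hpi : (4 * π * Complex.I : ℂ) ≠ 0 := by
    have : (π : ℂ) ≠ 0 := by exact_mod_cast Real.pi_ne_zero
    simp [this]
  rw [mul_div_cancel_left₀ _ hpi, Finset.mul_sum]
  unfold Pool.Agent.W711.HT.gd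
  have hfun2 : Pool.Agent.W711.HT.un v = fun j : ℕ => 2 * Complex.cos (zz N (sv N v) j) := hfun
  apply Finset.sum_congr rfl
  intro k _
  rw [hfun2, theta_eq hNp hv hs k, mul_zpow, EZ_eq]
  ring

theorem gdl : Pool.Agent.W711.HT.S_GDL := by
  intro a N hN
  refine ⟨Cs N (1, 1) ^ a * Complex.I, ?_, ?_⟩
  · rw [norm_mul, norm_zpow, Cs_norm, one_zpow, Complex.norm_I, one_mul]
  intro l n hl hn
  rw [vN_v0]
  have hNp : 0 < N := by omega
  have hh : (0 : ℝ) < 1 / N := by positivity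
  have hpi0 : (π : ℂ) ≠ 0 := by exact_mod_cast Real.pi_ne_zero
  have hI0 : Complex.I ≠ 0 := Complex.I_ne_zero
  have hv0 : v0 N ≠ 0 := TE.v0_ne hN
  have hp : Tendsto (fun v => (sv N v, (sv N v)⁻¹)) (𝓝[≠] (v0 N)) (𝓝 ((1 : ℂ), (1 : ℂ))) := by
    have h1 : Tendsto (sv N) (𝓝[≠] (v0 N)) (𝓝 1) := by
      have := (sv_cont hN).tendsto
      rw [sv_v0 hN] at this
      exact this.mono_left nhdsWithin_le_nhds
    have h2 : Tendsto (fun v => (sv N v)⁻¹) (𝓝[≠] (v0 N)) (𝓝 1) := by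
      have := h1.inv₀ one_ne_zero
      simpa using this
    exact h1.prodMk_nhds h2
  have hr : Tendsto (fun v => Pool.Agent.W709.VC.rect (fun φ => PZ a N (sv N v, (sv N v)⁻¹) φ /
      QZ N (Icc l n) (sv N v, (sv N v)⁻¹) φ) 0 (2 * π) (-(1 / N)) (1 / N)) (𝓝[≠] (v0 N))
      (𝓝 (Pool.Agent.W709.VC.rect (fun φ => PZ a N (1, 1) φ / QZ N (Icc l n) (1, 1) φ) 0 (2 * π)
        (-(1 / N)) (1 / N))) := by
    refine Tendsto.comp (tendsto_rect_div (X := ℂ × ℂ) (PZ_cont a N) (QZ_cont N (Icc l n))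
      (a := 0) (b := 2 * π) (c := -(1 / N)) (d := 1 / N) (p₀ := ((1 : ℂ), (1 : ℂ))) ?_) hp
    intro z hz
    unfold QZ
    rw [Finset.prod_ne_zero_iff]
    intro j hj
    rw [Finset.mem_Icc] at hj
    have hzz : zz N ((1 : ℂ), (1 : ℂ)).1 j = ((Pool.Agent.W709.VC.phi N j : ℝ) : ℂ) := zz_one N j
    rw [hzz]
    have h2 := phi_mem (N := N) (j := j) (by omega)
    have h3 := bd_ne (z := ((Pool.Agent.W709.VC.phi N j : ℝ) : ℂ)) (by simpa using h2.1)
      (by simpa using h2.2) (by simpa using hh) hz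
    intro h4
    apply h3
    linear_combination (1 / 2) * h4
  have hC : Tendsto (fun v => Cs N (sv N v, (sv N v)⁻¹) ^ a) (𝓝[≠] (v0 N)) (𝓝 (Cs N (1, 1) ^ a)) := by
    have h1 : Continuous (Cs N) := by
      unfold Cs
      fun_prop
    have h2 : ContinuousAt (fun p => Cs N p ^ a) ((1 : ℂ), (1 : ℂ)) :=
      h1.continuousAt.zpow₀ a (Or.inl (Complex.exp_ne_zero _))
    exact h2.tendsto.comp hp
  have hfin := hC.mul (hr.div_const (4 * π * Complex.I))
  rw [rect_FZ a hn hl hh, rect_upp hh (FZ_odd a N l n) (FZ_RI a hNp hh)] at hfin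
  have hval : Cs N (1, 1) ^ a * ((-1) ^ (N - 1 - n + l) *
      (-2 * Pool.Agent.W711.HT.upp (1 / N) (FZ a N l n)) / (4 * π * Complex.I)) =
      Cs N (1, 1) ^ a * Complex.I * (-1) ^ (N - 1 - n + l) / (2 * π) *
        Pool.Agent.W711.HT.upp (1 / N) fun ψ => Pool.Agent.W711.HT.Ea a N ψ *
          Pool.Agent.W711.HT.Rp N (N - 1 - n) ψ * Pool.Agent.W711.HT.Rp N l ψ *
          Pool.Agent.W711.HT.kr N ψ := by
    have e1 : (fun ψ => Pool.Agent.W711.HT.Ea a N ψ *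
          Pool.Agent.W711.HT.Rp N (N - 1 - n) ψ * Pool.Agent.W711.HT.Rp N l ψ *
          Pool.Agent.W711.HT.kr N ψ) = FZ a N l n := rfl
    rw [e1]
    field_simp
    rw [Complex.I_sq]
    ring
  rw [hval] at hfin
  refine Tendsto.congr' ?_ hfin
  filter_upwards [near hN a hl hn hh] with v hv
  rw [hv]

end Pool.Agent.W349.HT
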